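import Mathlib

set_option autoImplicit false

namespace Pool.Agent.Lib.MP_537007_co.Acyc

open Finset

/-- A threshold relation restricted to `E` is determined by its row and column counts. -/
theorem ferrers_le {V : Type} [Fintype V] (E : V → V → Prop) [DecidableRel E]
    (f g f' g' : V → ℝ)
    (hrow : ∀ u, (univ.filter (fun v => E u v ∧ f u ≤ g v)).card =
      (univ.filter (fun v => E u v ∧ f' u ≤ g' v)).card)
    (hcol : ∀ v, (univ.filter (fun u => E u v ∧ f u ≤ g v)).card =
      (univ.filter (fun u => E u v ∧ f' u ≤ g' v)).card)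
    (u v : V) (hE : E u v) (h' : f' u ≤ g' v) : f u ≤ g v := by
  by_contra hcon
  let I : V → V → ℝ := fun a b => if E a b ∧ f a ≤ g b then 1 else 0
  let I' : V → V → ℝ := fun a b => if E a b ∧ f' a ≤ g' b then 1 else 0
  have hr : ∀ a, ∑ b, I a b = ∑ b, I' a b := by
    intro a
    simp only [I, I', Finset.sum_boole]
    rw [hrow a]
  have hc : ∀ b, ∑ a, I a b = ∑ a, I' a b := by
    intro b
    simp only [I, I', Finset.sum_boole]
    rw [hcol b]
  have hsum : ∑ a, ∑ b, (I a b - I' a b) * (g b - f a) = 0 := by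
    have e1 : ∑ a, ∑ b, (I a b - I' a b) * g b = 0 := by
      rw [Finset.sum_comm]
      apply Finset.sum_eq_zero
      intro b _
      rw [← Finset.sum_mul, Finset.sum_sub_distrib, hc b, sub_self, zero_mul]
    have e2 : ∑ a, ∑ b, (I a b - I' a b) * f a = 0 := by
      apply Finset.sum_eq_zero
      intro a _
      rw [← Finset.sum_mul, Finset.sum_sub_distrib, hr a, sub_self, zero_mul]
    simp only [mul_sub, Finset.sum_sub_distrib]
    rw [e1, e2, sub_self]
  have hnn : ∀ a b, 0 ≤ (I a b - I' a b) * (g b - f a) := by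
    intro a b
    simp only [I, I']
    by_cases h1 : E a b ∧ f a ≤ g b <;> by_cases h2 : E a b ∧ f' a ≤ g' b
    · simp [h1, h2]
    · rw [if_pos h1, if_neg h2]; linarith [h1.2]
    · rw [if_neg h1, if_pos h2]
      have : g b < f a := by
        by_contra hh
        exact h1 ⟨h2.1, not_lt.1 hh⟩
      linarith
    · rw [if_neg h1, if_neg h2]; simp
  have hpos : 0 < (I u v - I' u v) * (g v - f u) := by
    simp only [I, I']
    rw [if_neg (fun hh => hcon hh.2), if_pos ⟨hE, h'⟩]
    have := not_le.1 hcon
    linarith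
  have h1 : (I u v - I' u v) * (g v - f u) ≤ ∑ b, (I u b - I' u b) * (g b - f u) :=
    Finset.single_le_sum (f := fun b => (I u b - I' u b) * (g b - f u))
      (fun b _ => hnn u b) (Finset.mem_univ v)
  have h2 : ∑ b, (I u b - I' u b) * (g b - f u) ≤ ∑ a, ∑ b, (I a b - I' a b) * (g b - f a) :=
    Finset.single_le_sum (f := fun a => ∑ b, (I a b - I' a b) * (g b - f a))
      (fun a _ => Finset.sum_nonneg (fun b _ => hnn a b)) (Finset.mem_univ u)
  linarith

/-- Endpoint form of a box representation in dimension `d`. -/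
def Rep {V : Type} (H : SimpleGraph V) (d : ℕ) : Prop :=
  ∃ l r : V → Fin d → ℝ, ∀ u v : V, u ≠ v →
    (H.Adj u v ↔ ∀ i, l u i ≤ r v i ∧ l v i ≤ r u i)

theorem two_pow_le {V : Type} [Fintype V] [DecidableEq V] (G : SimpleGraph V)
    [DecidableRel G.Adj] (d : ℕ) (h : ∀ H : SimpleGraph V, H ≤ G → Rep H d) :
    2 ^ G.edgeFinset.card ≤ (∏ u, (G.degree u + 1)) ^ (2 * d) := by
  let S := {s : Finset (Sym2 V) // s ∈ G.edgeFinset.powerset}
  let F : S → SimpleGraph V := fun s => SimpleGraph.fromEdgeSet (s.1 : Set (Sym2 V))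
  have hsub : ∀ s : S, (s.1 : Set (Sym2 V)) ⊆ G.edgeSet := by
    intro s e he
    have := Finset.mem_powerset.1 s.2 (Finset.mem_coe.1 he)
    simpa using this
  have hle : ∀ s : S, F s ≤ G := by
    intro s
    have := SimpleGraph.fromEdgeSet_mono (hsub s)
    rwa [SimpleGraph.fromEdgeSet_edgeSet] at this
  have hF : Function.Injective F := by
    intro s t hst
    apply Subtype.ext
    ext e
    induction e using Sym2.ind with
    | h a b =>
    have key : ∀ s : S, s(a, b) ∈ s.1 ↔ (F s).Adj a b := by
      intro s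
      simp only [F, SimpleGraph.fromEdgeSet_adj, Finset.mem_coe]
      constructor
      · intro hh
        exact ⟨hh, (G.mem_edgeSet.1 (hsub s (Finset.mem_coe.2 hh))).ne⟩
      · exact fun hh => hh.1
    rw [key s, key t, hst]
  choose l r hadj using fun s : S => h (F s) (hle s)
  have hb1 : ∀ (s : S) (i : Fin d) (u : V),
      (univ.filter (fun v => G.Adj u v ∧ l s u i ≤ r s v i)).card < G.degree u + 1 := by
    intro s i u
    apply Nat.lt_succ_of_le
    rw [← SimpleGraph.card_neighborFinset_eq_degree]
    apply Finset.card_le_card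
    intro v hv
    simp only [Finset.mem_filter, Finset.mem_univ, true_and] at hv
    simpa using hv.1
  have hb2 : ∀ (s : S) (i : Fin d) (v : V),
      (univ.filter (fun u => G.Adj u v ∧ l s u i ≤ r s v i)).card < G.degree v + 1 := by
    intro s i v
    apply Nat.lt_succ_of_le
    rw [← SimpleGraph.card_neighborFinset_eq_degree]
    apply Finset.card_le_card
    intro u hu
    simp only [Finset.mem_filter, Finset.mem_univ, true_and] at hu
    simpa using hu.1.symm
  let code : S → (Fin d → ∀ u : V, Fin (G.degree u + 1) × Fin (G.degree u + 1)) :=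
    fun s i u => (⟨_, hb1 s i u⟩, ⟨_, hb2 s i u⟩)
  have himp : ∀ s t : S, code s = code t → ∀ u v, (F t).Adj u v → (F s).Adj u v := by
    intro s t hst u v huv
    have hG := hle t huv
    have hne := hG.ne
    have hrow : ∀ i u, (univ.filter (fun v => G.Adj u v ∧ l s u i ≤ r s v i)).card =
        (univ.filter (fun v => G.Adj u v ∧ l t u i ≤ r t v i)).card := fun i u =>
      congrArg (fun c => (c i u).1.1) hst
    have hcol : ∀ i v, (univ.filter (fun u => G.Adj u v ∧ l s u i ≤ r s v i)).card =
        (univ.filter (fun u => G.Adj u v ∧ l t u i ≤ r t v i)).card := fun i v =>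
      congrArg (fun c => (c i v).2.1) hst
    rw [hadj t u v hne] at huv
    rw [hadj s u v hne]
    intro i
    exact ⟨ferrers_le G.Adj (fun a => l s a i) (fun b => r s b i) (fun a => l t a i)
        (fun b => r t b i) (hrow i) (hcol i) u v hG (huv i).1,
      ferrers_le G.Adj (fun a => l s a i) (fun b => r s b i) (fun a => l t a i)
        (fun b => r t b i) (hrow i) (hcol i) v u hG.symm (huv i).2⟩
  have hinj : Function.Injective code := by
    intro s t hst
    apply hF
    ext u v
    exact ⟨himp t s hst.symm u v, himp s t hst u v⟩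
  have hcard := Fintype.card_le_of_injective code hinj
  have hS : Fintype.card S = 2 ^ G.edgeFinset.card := by
    simp only [S]
    rw [Fintype.card_coe, Finset.card_powerset]
  rw [hS] at hcard
  simp only [Fintype.card_pi, Fintype.card_prod, Fintype.card_fin, Finset.prod_const,
    Finset.card_univ, Finset.prod_mul_distrib] at hcard
  calc 2 ^ G.edgeFinset.card ≤ _ := hcard
    _ = _ := by rw [← pow_two, ← pow_mul]

/-- Logarithmic form: the average degree `D` satisfies `D ≤ 4 d log₂ (D + 1)`. -/
theorem avg_le {V : Type} [Fintype V] (G : SimpleGraph V) (d : ℕ) (D : ℝ)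
    (hD : D = 2 * (Nat.card G.edgeSet : ℝ) / (Fintype.card V : ℝ))
    (h : ∀ H : SimpleGraph V, H ≤ G → Rep H d) :
    D ≤ 4 * d * Real.logb 2 (D + 1) := by
  classical
  have hm : Nat.card G.edgeSet = G.edgeFinset.card := by
    rw [Nat.card_eq_fintype_card, SimpleGraph.edgeFinset_card]
  rw [hm] at hD
  rcases Nat.eq_zero_or_pos (Fintype.card V) with hn | hn
  · rw [hn] at hD
    simp at hD
    subst hD
    simp
  have hnR : (0 : ℝ) < Fintype.card V := by exact_mod_cast hn
  have hD0 : 0 ≤ D := by rw [hD]; positivity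
  have hsumdeg : ∑ u, (G.degree u : ℝ) = D * Fintype.card V := by
    have := G.sum_degrees_eq_twice_card_edges
    rw [hD, div_mul_cancel₀ _ hnR.ne']
    exact_mod_cast this
  have h1 := two_pow_le G d h
  have h2 : (G.edgeFinset.card : ℝ) * Real.log 2 ≤
      (2 * d : ℝ) * ∑ u, Real.log ((G.degree u : ℝ) + 1) := by
    have h3 : ((2 : ℝ)) ^ G.edgeFinset.card ≤ (∏ u, ((G.degree u : ℝ) + 1)) ^ (2 * d) := by
      exact_mod_cast h1
    have h4 := Real.log_le_log (by positivity) h3
    rw [Real.log_pow, Real.log_pow, Real.log_prod (fun u _ => by positivity)] at h4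
    exact_mod_cast h4
  have h5 : ∑ u, Real.log ((G.degree u : ℝ) + 1) ≤ Fintype.card V * Real.log (D + 1) := by
    have hpt : ∀ u, Real.log ((G.degree u : ℝ) + 1) ≤
        Real.log (D + 1) + ((G.degree u : ℝ) - D) / (D + 1) := by
      intro u
      have hp : (0 : ℝ) < ((G.degree u : ℝ) + 1) / (D + 1) := by positivity
      have := Real.log_le_sub_one_of_pos hp
      rw [Real.log_div (by positivity) (by positivity)] at this
      have e : ((G.degree u : ℝ) + 1) / (D + 1) - 1 = ((G.degree u : ℝ) - D) / (D + 1) := by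
        field_simp
        ring
      linarith
    calc ∑ u, Real.log ((G.degree u : ℝ) + 1)
        ≤ ∑ u, (Real.log (D + 1) + ((G.degree u : ℝ) - D) / (D + 1)) :=
          Finset.sum_le_sum (fun u _ => hpt u)
      _ = Fintype.card V * Real.log (D + 1) := by
          rw [Finset.sum_add_distrib, ← Finset.sum_div, Finset.sum_sub_distrib, hsumdeg]
          simp [mul_comm]
  have hlog2 : 0 < Real.log 2 := Real.log_pos (by norm_num)
  have hmD : (G.edgeFinset.card : ℝ) = D * Fintype.card V / 2 := by
    rw [hD]; field_simp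
  have h6 : D * Fintype.card V / 2 * Real.log 2 ≤
      (2 * d : ℝ) * (Fintype.card V * Real.log (D + 1)) := by
    rw [← hmD]
    exact h2.trans (mul_le_mul_of_nonneg_left h5 (by positivity))
  rw [Real.logb, ← mul_div_assoc, le_div_iff₀ hlog2]
  have h7 : (Fintype.card V : ℝ) * (D * Real.log 2) ≤
      Fintype.card V * (4 * d * Real.log (D + 1)) := by nlinarith
  exact le_of_mul_le_mul_left h7 hnR

end Pool.Agent.Lib.MP_537007_co.Acyc
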