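import Mathlib

set_option autoImplicit false

namespace Pool.Agent.Lib.MP_537007_co

open Finset

/-- `G` is the intersection graph of axis-parallel boxes in dimension `d`. -/
def BoxRep {V : Type} (G : SimpleGraph V) (d : ℕ) : Prop :=
  ∃ l r : V → Fin d → ℝ, (∀ v i, l v i ≤ r v i) ∧
    ∀ u v : V, u ≠ v → (G.Adj u v ↔ ∀ i, max (l u i) (l v i) ≤ min (r u i) (r v i))

/-- rank of a real number with respect to a finite family of reals -/
noncomputable def rank {V : Type} [Fintype V] (a : V → ℝ) (x : ℝ) : Fin (Fintype.card V + 1) :=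
  ⟨(Finset.univ.filter (fun w => a w ≤ x)).card,
    Nat.lt_succ_of_le (by simpa using Finset.card_filter_le (Finset.univ : Finset V) _)⟩

theorem rank_le_iff {V : Type} [Fintype V] (a : V → ℝ) (u : V) (x : ℝ) :
    rank a (a u) ≤ rank a x ↔ a u ≤ x := by
  classical
  constructor
  · intro h
    by_contra hx
    push Not at hx
    have hsub : (Finset.univ.filter (fun w => a w ≤ x)) ⊂
        (Finset.univ.filter (fun w => a w ≤ a u)) := by
      rw [Finset.ssubset_iff_of_subset]
      · exact ⟨u, by simp, by simpa using hx⟩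
      · intro w hw
        simp only [Finset.mem_filter, Finset.mem_univ, true_and] at hw ⊢
        linarith
    have := Finset.card_lt_card hsub
    simp only [rank, Fin.mk_le_mk] at h
    omega
  · intro h
    simp only [rank, Fin.mk_le_mk]
    apply Finset.card_le_card
    intro w hw
    simp only [Finset.mem_filter, Finset.mem_univ, true_and] at hw ⊢
    linarith

/-- There are at most `(N+1)^(2Nd)` graphs of boxicity at most `d` on `N` labelled vertices. -/
theorem card_le_of_boxRep {V S : Type} [Fintype V] [Fintype S] (d : ℕ)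
    (F : S → SimpleGraph V) (hF : Function.Injective F) (hd : ∀ s, BoxRep (F s) d) :
    Fintype.card S ≤ (Fintype.card V + 1) ^ (2 * Fintype.card V * d) := by
  classical
  choose l r hlr hadj using hd
  let code : S → (V → Fin d → Fin (Fintype.card V + 1) × Fin (Fintype.card V + 1)) :=
    fun s v i => (rank (fun w => l s w i) (l s v i), rank (fun w => l s w i) (r s v i))
  have key : ∀ s u v, u ≠ v → ((F s).Adj u v ↔
      ∀ i, (code s u i).1 ≤ (code s v i).2 ∧ (code s v i).1 ≤ (code s u i).2) := by
    intro s u v huv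
    rw [hadj s u v huv]
    refine forall_congr' fun i => ?_
    have h1 := rank_le_iff (fun w => l s w i) u (r s v i)
    have h2 := rank_le_iff (fun w => l s w i) v (r s u i)
    simp only [code]
    rw [h1, h2]
    have := hlr s u i
    have := hlr s v i
    simp only [max_le_iff, le_min_iff]
    tauto
  have hinj : Function.Injective code := by
    intro s s' h
    apply hF
    ext u v
    by_cases huv : u = v
    · subst huv; simp
    · rw [key s u v huv, key s' u v huv, h]
  have := Fintype.card_le_of_injective code hinj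
  simp only [Fintype.card_pi, Fintype.card_prod, Fintype.card_fin, Finset.prod_const,
    Finset.card_univ] at this
  calc Fintype.card S ≤ _ := this
    _ = _ := by rw [← pow_two, ← pow_mul, ← pow_mul]; congr 1; ring

/-- A separating embedding of the vertices gives a box representation of the line graph. -/
theorem boxRep_lineGraph {V ι : Type} [Fintype ι] (G : SimpleGraph V) (φ : V → ι → ℝ)
    (h : ∀ a b c d, G.Adj a b → G.Adj c d → a ≠ c → a ≠ d → b ≠ c → b ≠ d →
      ∃ i, max (φ a i) (φ b i) < min (φ c i) (φ d i) ∨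
        max (φ c i) (φ d i) < min (φ a i) (φ b i)) :
    BoxRep G.lineGraph (Fintype.card ι) := by
  classical
  let e := (Fintype.equivFin ι).symm
  refine ⟨fun x i => Sym2.lift ⟨fun a b => min (φ a (e i)) (φ b (e i)), fun a b => min_comm _ _⟩ x.1,
    fun x i => Sym2.lift ⟨fun a b => max (φ a (e i)) (φ b (e i)), fun a b => max_comm _ _⟩ x.1,
    ?_, ?_⟩
  · rintro ⟨x, hx⟩ i
    induction x using Sym2.ind with
    | h a b => simp
  · rintro ⟨x, hx⟩ ⟨y, hy⟩ hne
    induction x using Sym2.ind with
    | h a b =>
    induction y using Sym2.ind with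
    | h c d =>
    rw [SimpleGraph.lineGraph_adj_iff_exists]
    simp only [Sym2.lift_mk, Sym2.mem_iff]
    constructor
    · rintro ⟨-, v, hv1, hv2⟩ i
      have h1 : max (min (φ a (e i)) (φ b (e i))) (min (φ c (e i)) (φ d (e i))) ≤ φ v (e i) := by
        apply max_le
        · rcases hv1 with rfl | rfl <;> simp
        · rcases hv2 with rfl | rfl <;> simp
      have h2 : φ v (e i) ≤ min (max (φ a (e i)) (φ b (e i))) (max (φ c (e i)) (φ d (e i))) := by
        apply le_min
        · rcases hv1 with rfl | rfl <;> simp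
        · rcases hv2 with rfl | rfl <;> simp
      exact h1.trans h2
    · intro H
      refine ⟨hne, ?_⟩
      by_contra hcon
      push Not at hcon
      have hac : a ≠ c := fun hh => (hcon a (Or.inl rfl)).1 hh
      have had : a ≠ d := fun hh => (hcon a (Or.inl rfl)).2 hh
      have hbc : b ≠ c := fun hh => (hcon b (Or.inr rfl)).1 hh
      have hbd : b ≠ d := fun hh => (hcon b (Or.inr rfl)).2 hh
      obtain ⟨i, hi⟩ := h a b c d hx hy hac had hbc hbd
      have H' := H (e.symm i)
      simp only [Equiv.apply_symm_apply] at H'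
      have H1 := (le_max_right _ _).trans (H'.trans (min_le_left _ _))
      have H2 := (le_max_left _ _).trans (H'.trans (min_le_right _ _))
      rcases hi with hi | hi
      · linarith
      · linarith

/-- The bipartite graph of a relation. -/
def bip {P L : Type} (J : P → L → Prop) : SimpleGraph (P ⊕ L) where
  Adj u v := (∃ p l, u = Sum.inl p ∧ v = Sum.inr l ∧ J p l) ∨
    (∃ p l, v = Sum.inl p ∧ u = Sum.inr l ∧ J p l)
  symm := ⟨fun _ _ h => h.symm⟩
  loopless := ⟨fun u h => by
    rcases h with ⟨p, l, h1, h2, -⟩ | ⟨p, l, h1, h2, -⟩ <;> simp_all⟩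

theorem bip_adj {P L : Type} (J : P → L → Prop) (p : P) (l : L) :
    (bip J).Adj (Sum.inl p) (Sum.inr l) ↔ J p l := by
  simp [bip]

/-- `R` is an intersection of Ferrers relations indexed by `ι`. -/
def IsFer (ι : Type) {P L : Type} (R : P → L → Prop) : Prop :=
  ∃ (x : P → ι → ℝ) (y : L → ι → ℝ), ∀ p l, R p l ↔ ∀ s, x p s ≤ y l s

theorem IsFer.and {ι κ P L : Type} {R R' : P → L → Prop} (h : IsFer ι R) (h' : IsFer κ R') :
    IsFer (ι ⊕ κ) (fun p l => R p l ∧ R' p l) := by
  obtain ⟨x, y, h⟩ := h
  obtain ⟨x', y', h'⟩ := h'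
  refine ⟨fun p => Sum.elim (x p) (x' p), fun l => Sum.elim (y l) (y' l), fun p l => ?_⟩
  simp [h, h', Sum.forall]

theorem IsFer.congr {ι P L : Type} {R R' : P → L → Prop} (h : IsFer ι R)
    (e : ∀ p l, R' p l ↔ R p l) : IsFer ι R' := by
  obtain ⟨x, y, h⟩ := h
  exact ⟨x, y, fun p l => (e p l).trans (h p l)⟩

theorem isFer_le {P L α : Type} [Fintype α] [LinearOrder α] (a : P → α) (b : L → α) :
    IsFer Unit (fun p l => a p ≤ b l) := by
  let e := (monoEquivOfFin α rfl).symm
  refine ⟨fun p _ => ((e (a p) : ℕ) : ℝ), fun l _ => ((e (b l) : ℕ) : ℝ), fun p l => ?_⟩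
  simp

theorem isFer_ge {P L α : Type} [Fintype α] [LinearOrder α] (a : P → α) (b : L → α) :
    IsFer Unit (fun p l => b l ≤ a p) :=
  isFer_le (α := αᵒᵈ) (fun p => OrderDual.toDual (a p)) (fun l => OrderDual.toDual (b l))

theorem isFer_prefix {P L ι β : Type} [Fintype ι] [LinearOrder ι] [Fintype β] [LinearOrder β]
    [BoundedOrder β] (a : P → ι → β) (c : L → ι → β) (i : L → ι) :
    IsFer (Unit ⊕ Unit) (fun p l => ∀ t < i l, a p t = c l t) := by
  classical
  let lo : L → ι → β := fun l t => if t < i l then c l t else ⊥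
  let hi : L → ι → β := fun l t => if t < i l then c l t else ⊤
  refine ((isFer_le (α := Lex (ι → β)) (fun p => toLex (a p)) (fun l => toLex (hi l))).and
    (isFer_ge (α := Lex (ι → β)) (fun p => toLex (a p)) (fun l => toLex (lo l)))).congr ?_
  intro p l
  constructor
  · intro h
    constructor
    · apply Pi.toLex_monotone
      intro t
      by_cases ht : t < i l
      · simp [hi, ht, h t ht]
      · simp [hi, ht]
    · apply Pi.toLex_monotone
      intro t
      by_cases ht : t < i l
      · simp [lo, ht, h t ht]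
      · simp [lo, ht]
  · rintro ⟨h1, h2⟩ t
    induction t using WellFoundedLT.induction with
    | ind t ih =>
    intro ht
    rcases lt_trichotomy (a p t) (c l t) with hlt | heq | hgt
    · exfalso
      have : toLex (a p) < toLex (lo l) := by
        refine ⟨t, fun j hj => ?_, ?_⟩
        · have hj' : j < i l := lt_trans hj ht
          simp [lo, hj', ih j hj hj']
        · simpa [lo, ht] using hlt
      exact absurd h2 (not_le.mpr this)
    · exact heq
    · exfalso
      have : toLex (hi l) < toLex (a p) := by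
        refine ⟨t, fun j hj => ?_, ?_⟩
        · have hj' : j < i l := lt_trans hj ht
          simp [hi, hj', ih j hj hj']
        · simpa [hi, ht] using hgt
      exact absurd h1 (not_le.mpr this)

theorem isFer_off {P L ι β : Type} [Fintype ι] [LinearOrder ι] [Fintype β] [LinearOrder β]
    [BoundedOrder β] (a : P → ι → β) (c : L → ι → β) (i : L → ι) :
    IsFer ((Unit ⊕ Unit) ⊕ (Unit ⊕ Unit)) (fun p l => ∀ t, t ≠ i l → a p t = c l t) := by
  refine ((isFer_prefix a c i).and
    (isFer_prefix (ι := ιᵒᵈ) (fun p t => a p (OrderDual.ofDual t))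
      (fun l t => c l (OrderDual.ofDual t)) (fun l => OrderDual.toDual (i l)))).congr ?_
  intro p l
  constructor
  · intro h
    exact ⟨fun t ht => h t ht.ne, fun t ht => h _ (fun hh => ht.ne (by rw [← hh]; rfl))⟩
  · rintro ⟨h1, h2⟩ t ht
    rcases lt_or_gt_of_ne ht with h | h
    · exact h1 t h
    · exact h2 (OrderDual.toDual t) h

/-- Subgraphs of a `C₄`-free intersection of Ferrers relations have small separation dimension. -/
theorem boxRep_lineGraph_bip {ι P L : Type} [Fintype ι] {I : P → L → Prop} (hI : IsFer ι I)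
    (hC : ∀ p p' l l', I p l → I p l' → I p' l → I p' l' → p = p' ∨ l = l')
    (J : P → L → Prop) (hJ : ∀ p l, J p l → I p l) :
    BoxRep (bip J).lineGraph (Fintype.card ι) := by
  obtain ⟨x, y, hxy⟩ := hI
  have main : ∀ p l p' l', J p l → J p' l' → p ≠ p' → l ≠ l' →
      ∃ i, max (x p i) (y l i) < min (x p' i) (y l' i) ∨
        max (x p' i) (y l' i) < min (x p i) (y l i) := by
    intro p l p' l' h h' hp hl
    have h1 := (hxy _ _).1 (hJ _ _ h)
    have h2 := (hxy _ _).1 (hJ _ _ h')
    by_cases h3 : I p l'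
    · have h4 : ¬ I p' l := fun h4 => by
        rcases hC p p' l l' (hJ _ _ h) h3 h4 (hJ _ _ h') with h5 | h5
        · exact hp h5
        · exact hl h5
      rw [hxy] at h4
      push Not at h4
      obtain ⟨s, hs⟩ := h4
      refine ⟨s, Or.inl ?_⟩
      have := h1 s
      have := h2 s
      simp only [lt_min_iff, max_lt_iff]
      refine ⟨⟨?_, ?_⟩, ?_, ?_⟩ <;> linarith
    · rw [hxy] at h3
      push Not at h3
      obtain ⟨s, hs⟩ := h3
      refine ⟨s, Or.inr ?_⟩
      have := h1 s
      have := h2 s
      simp only [lt_min_iff, max_lt_iff]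
      refine ⟨⟨?_, ?_⟩, ?_, ?_⟩ <;> linarith
  apply boxRep_lineGraph (bip J) (Sum.elim x y)
  intro a b c d hab hcd hac had hbc hbd
  rcases hab with ⟨p, l, rfl, rfl, h⟩ | ⟨p, l, rfl, rfl, h⟩ <;>
  rcases hcd with ⟨p', l', rfl, rfl, h'⟩ | ⟨p', l', rfl, rfl, h'⟩
  · obtain ⟨i, hi⟩ := main p l p' l' h h' (by simpa using hac) (by simpa using hbd)
    exact ⟨i, by simpa using hi⟩
  · obtain ⟨i, hi⟩ := main p l p' l' h h' (by simpa using had) (by simpa using hbc)
    exact ⟨i, by simpa [max_comm, min_comm] using hi⟩
  · obtain ⟨i, hi⟩ := main p l p' l' h h' (by simpa using hbc) (by simpa using had)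
    exact ⟨i, by simpa [max_comm, min_comm] using hi⟩
  · obtain ⟨i, hi⟩ := main p l p' l' h h' (by simpa using hbd) (by simpa using hac)
    exact ⟨i, by simpa [max_comm, min_comm] using hi⟩

end Pool.Agent.Lib.MP_537007_co
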