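import Mathlib
import Pool.Agent.Lib.MP_537007_co.Acyc

set_option autoImplicit false

namespace Pool.Agent.Lib.MP_537007_co.Grid

open Finset

/-- points of the grid -/
abbrev Pt (t : ℕ) : Type := Fin (t + 1) → Fin (t + 1)
/-- axis-parallel lines of the grid: a direction and the other coordinates -/
abbrev Ln (t : ℕ) : Type := Fin (t + 1) × (Fin t → Fin (t + 1))

/-- a point of the line -/
def base {t : ℕ} (l : Ln t) : Pt t := Fin.insertNth l.1 (0 : Fin (t + 1)) l.2

/-- incidence -/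
def Inc {t : ℕ} (p : Pt t) (l : Ln t) : Prop := ∀ j, j ≠ l.1 → p j = base l j

/-- the line through `p` in direction `i` -/
def thru {t : ℕ} (p : Pt t) (i : Fin (t + 1)) : Ln t := (i, fun j => p (i.succAbove j))

theorem inc_iff {t : ℕ} (p : Pt t) (l : Ln t) : Inc p l ↔ l = thru p l.1 := by
  obtain ⟨i, a⟩ := l
  constructor
  · intro h
    simp only [thru, Prod.mk.injEq, true_and]
    funext j
    have := h (i.succAbove j) (Fin.succAbove_ne i j)
    simp only [base, Fin.insertNth_apply_succAbove] at this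
    exact this.symm
  · intro h j hj
    simp only [thru, Prod.mk.injEq, true_and] at h
    obtain ⟨j', rfl⟩ := Fin.exists_succAbove_eq hj
    simp only [base, Fin.insertNth_apply_succAbove]
    rw [h]

/-- the point-line incidence graph -/
def gr (t : ℕ) : SimpleGraph (Pt t ⊕ Ln t) where
  Adj u v := (∃ p l, u = Sum.inl p ∧ v = Sum.inr l ∧ Inc p l) ∨
    (∃ p l, v = Sum.inl p ∧ u = Sum.inr l ∧ Inc p l)
  symm := ⟨fun _ _ h => h.symm⟩
  loopless := ⟨fun u h => by
    rcases h with ⟨p, l, h1, h2, -⟩ | ⟨p, l, h1, h2, -⟩ <;> simp_all⟩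

theorem card_vert (t : ℕ) : Fintype.card (Pt t ⊕ Ln t) = 2 * (t + 1) ^ (t + 1) := by
  simp only [Fintype.card_sum, Fintype.card_prod, Fintype.card_pi, Fintype.card_fin,
    Finset.prod_const, Finset.card_univ]
  ring

theorem card_edge (t : ℕ) : Nat.card (gr t).edgeSet = (t + 1) ^ (t + 1) * (t + 1) := by
  let f : Pt t × Fin (t + 1) → (gr t).edgeSet := fun x =>
    ⟨s(Sum.inl x.1, Sum.inr (thru x.1 x.2)), Or.inl ⟨x.1, thru x.1 x.2, rfl, rfl,
      (inc_iff _ _).2 rfl⟩⟩
  have hf : Function.Bijective f := by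
    constructor
    · rintro ⟨p, i⟩ ⟨q, j⟩ h
      have h' : s(Sum.inl p, Sum.inr (thru p i)) =
          (s(Sum.inl q, Sum.inr (thru q j)) : Sym2 (Pt t ⊕ Ln t)) := congrArg Subtype.val h
      rw [Sym2.eq_iff] at h'
      rcases h' with ⟨h1, h2⟩ | ⟨h1, h2⟩
      · have e1 : p = q := Sum.inl_injective h1
        have e2 : i = j := congrArg Prod.fst (Sum.inr_injective h2)
        rw [e1, e2]
      · cases h1
    · rintro ⟨e, he⟩
      induction e using Sym2.ind with
      | h u v =>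
      have he' : (gr t).Adj u v := he
      rcases he' with ⟨p, l, rfl, rfl, h⟩ | ⟨p, l, rfl, rfl, h⟩
      · refine ⟨(p, l.1), Subtype.ext ?_⟩
        simp only [f]
        rw [← (inc_iff p l).1 h]
      · refine ⟨(p, l.1), Subtype.ext ?_⟩
        simp only [f]
        rw [← (inc_iff p l).1 h, Sym2.eq_swap]
  rw [← Nat.card_eq_of_bijective f hf]
  simp [Nat.card_eq_fintype_card]

/-- two points lie on at most one common line -/
theorem c4 {t : ℕ} {p q : Pt t} {l m : Ln t} (hpq : p ≠ q) (h1 : Inc p l) (h2 : Inc q l)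
    (h3 : Inc p m) (h4 : Inc q m) : l = m := by
  have hi : l.1 = m.1 := by
    by_contra hne
    apply hpq
    funext j
    by_cases hj : j = l.1
    · have : j ≠ m.1 := by rw [hj]; exact hne
      rw [h3 j this, h4 j this]
    · rw [h1 j hj, h2 j hj]
  rw [(inc_iff p l).1 h1, (inc_iff p m).1 h3, hi]

/-- position of a vertex for the reading order `σ` of the indices and `τ` of the digits -/
def key {t : ℕ} (σ τ : Fin (t + 1) ≃ Fin (t + 1)) :
    Pt t ⊕ Ln t → Lex (Fin (t + 1) → Fin (t + 1))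
  | Sum.inl p => toLex (fun j => τ (p (σ j)))
  | Sum.inr l => toLex (fun j => if j < σ.symm l.1 then τ (base l (σ j)) else Fin.last t)

theorem key_le {t : ℕ} (σ τ : Fin (t + 1) ≃ Fin (t + 1)) {p : Pt t} {l : Ln t} (h : Inc p l) :
    key σ τ (Sum.inl p) ≤ key σ τ (Sum.inr l) := by
  apply Pi.toLex_monotone
  intro j
  by_cases hj : j < σ.symm l.1
  · simp only [hj, if_true]
    have : σ j ≠ l.1 := by
      intro hh
      rw [← hh, Equiv.symm_apply_apply] at hj
      exact lt_irrefl _ hj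
    rw [h _ this]
  · simp only [hj, if_false]
    exact Fin.le_last _

theorem key_lt {t : ℕ} (σ τ : Fin (t + 1) ≃ Fin (t + 1)) {p q : Pt t} {l : Ln t} (h : Inc p l)
    (j : Fin (t + 1)) (hj : j < σ.symm l.1) (hpre : ∀ i, i < j → q (σ i) = p (σ i))
    (hlt : τ (p (σ j)) < τ (q (σ j))) :
    key σ τ (Sum.inr l) < key σ τ (Sum.inl q) := by
  have hne : ∀ i, i < σ.symm l.1 → σ i ≠ l.1 := by
    intro i hi hh
    rw [← hh, Equiv.symm_apply_apply] at hi
    exact lt_irrefl _ hi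
  refine ⟨j, fun i hi => ?_, ?_⟩
  · change (if i < σ.symm l.1 then τ (base l (σ i)) else Fin.last t) = τ (q (σ i))
    rw [if_pos (hi.trans hj), hpre i hi, h _ (hne i (hi.trans hj))]
  · change (if j < σ.symm l.1 then τ (base l (σ j)) else Fin.last t) < τ (q (σ j))
    rw [if_pos hj, ← h _ (hne j hj)]
    exact hlt

/-- identity or reversal -/
def fl (t : ℕ) (b : Bool) : Fin (t + 1) ≃ Fin (t + 1) := if b then Fin.revPerm else Equiv.refl _

theorem sep_core {t : ℕ} {p q : Pt t} {l : Ln t} (h : Inc p l) (hq : ¬ Inc q l) :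
    ∃ b c : Bool, key (fl t b) (fl t c) (Sum.inr l) < key (fl t b) (fl t c) (Sum.inl q) := by
  have h0 : ∃ j, j ≠ l.1 ∧ q j ≠ p j := by
    by_contra hcon
    push Not at hcon
    exact hq (fun j hj => (hcon j hj).trans (h j hj))
  obtain ⟨j, hj, hqp⟩ := h0
  have h1 : ∃ b : Bool, ∃ j', j' < (fl t b).symm l.1 ∧ q (fl t b j') ≠ p (fl t b j') := by
    rcases lt_or_gt_of_ne hj with hlt | hgt
    · exact ⟨false, j, by simpa [fl] using hlt, by simpa [fl] using hqp⟩
    · refine ⟨true, Fin.rev j, ?_, by simpa [fl] using hqp⟩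
      simpa [fl] using hgt
  obtain ⟨b, hex⟩ := h1
  obtain ⟨j0, ⟨hj0, hne⟩, hmin⟩ := WellFounded.has_min (wellFounded_lt (α := Fin (t + 1)))
    {j' | j' < (fl t b).symm l.1 ∧ q (fl t b j') ≠ p (fl t b j')} hex
  have hpre : ∀ i, i < j0 → q (fl t b i) = p (fl t b i) := by
    intro i hi
    by_contra hh
    exact hmin i ⟨hi.trans hj0, hh⟩ hi
  rcases lt_or_gt_of_ne hne with hlt | hgt
  · exact ⟨b, true, key_lt _ _ h j0 hj0 hpre (by simpa [fl] using hlt)⟩
  · exact ⟨b, false, key_lt _ _ h j0 hj0 hpre (by simpa [fl] using hgt)⟩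

/-- strict separation of two disjoint edges by one of the four keys -/
theorem sep_edges {t : ℕ} {p q : Pt t} {l m : Ln t} (h1 : Inc p l) (h2 : Inc q m)
    (hpq : p ≠ q) (hlm : l ≠ m) :
    ∃ b c : Bool,
      (∀ x ∈ ({Sum.inl p, Sum.inr l} : Set (Pt t ⊕ Ln t)),
        ∀ y ∈ ({Sum.inl q, Sum.inr m} : Set (Pt t ⊕ Ln t)),
          key (fl t b) (fl t c) x < key (fl t b) (fl t c) y) ∨
      (∀ x ∈ ({Sum.inl p, Sum.inr l} : Set (Pt t ⊕ Ln t)),
        ∀ y ∈ ({Sum.inl q, Sum.inr m} : Set (Pt t ⊕ Ln t)),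
          key (fl t b) (fl t c) y < key (fl t b) (fl t c) x) := by
  by_cases hq : Inc q l
  · have hp : ¬ Inc p m := fun hp => hlm (c4 hpq h1 hq hp h2)
    obtain ⟨b, c, hbc⟩ := sep_core h2 hp
    refine ⟨b, c, Or.inr ?_⟩
    have e1 := key_le (fl t b) (fl t c) h1
    have e2 := key_le (fl t b) (fl t c) h2
    rintro x (rfl | rfl) y (rfl | rfl)
    · exact e2.trans_lt hbc
    · exact hbc
    · exact (e2.trans_lt hbc).trans_le e1
    · exact hbc.trans_le e1
  · obtain ⟨b, c, hbc⟩ := sep_core h1 hq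
    refine ⟨b, c, Or.inl ?_⟩
    have e1 := key_le (fl t b) (fl t c) h1
    have e2 := key_le (fl t b) (fl t c) h2
    rintro x (rfl | rfl) y (rfl | rfl)
    · exact e1.trans_lt hbc
    · exact (e1.trans_lt hbc).trans_le e2
    · exact hbc
    · exact hbc.trans_le e2

/-- four linear orders separate all pairs of disjoint edges of the grid graph -/
theorem four_orders (t : ℕ) : ∃ F : Fin 4 → LinearOrder (Pt t ⊕ Ln t),
    ∀ a b c d, (gr t).Adj a b → (gr t).Adj c d → a ≠ c → a ≠ d → b ≠ c → b ≠ d →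
      ∃ i, ((F i).lt a c ∧ (F i).lt a d ∧ (F i).lt b c ∧ (F i).lt b d) ∨
        ((F i).lt c a ∧ (F i).lt d a ∧ (F i).lt c b ∧ (F i).lt d b) := by
  classical
  let e : Bool × Bool ≃ Fin 4 := Fintype.equivFinOfCardEq (by simp)
  let φ : Fin 4 → (Pt t ⊕ Ln t) → Lex (Fin (t + 1) → Fin (t + 1)) :=
    fun i => key (fl t (e.symm i).1) (fl t (e.symm i).2)
  let K : Fin 4 → (Pt t ⊕ Ln t) →
      (Lex (Fin (t + 1) → Fin (t + 1)) ×ₗ Fin (Fintype.card (Pt t ⊕ Ln t))) :=
    fun i v => toLex (φ i v, Fintype.equivFin _ v)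
  have hinj : ∀ i, Function.Injective (K i) := by
    intro i u v huv
    have := congrArg (fun x => (ofLex x).2) huv
    simpa [K] using this
  refine ⟨fun i => LinearOrder.lift' (K i) (hinj i), ?_⟩
  have hlt : ∀ i u v, φ i u < φ i v → (LinearOrder.lift' (K i) (hinj i)).lt u v := by
    intro i u v huv
    change K i u < K i v
    exact Prod.Lex.toLex_lt_toLex.2 (Or.inl huv)
  have main : ∀ (p q : Pt t) (l m : Ln t), Inc p l → Inc q m → p ≠ q → l ≠ m →
      ∀ a b c d : Pt t ⊕ Ln t, a ∈ ({Sum.inl p, Sum.inr l} : Set (Pt t ⊕ Ln t)) →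
        b ∈ ({Sum.inl p, Sum.inr l} : Set (Pt t ⊕ Ln t)) →
        c ∈ ({Sum.inl q, Sum.inr m} : Set (Pt t ⊕ Ln t)) →
        d ∈ ({Sum.inl q, Sum.inr m} : Set (Pt t ⊕ Ln t)) →
      ∃ i, ((LinearOrder.lift' (K i) (hinj i)).lt a c ∧ (LinearOrder.lift' (K i) (hinj i)).lt a d ∧
          (LinearOrder.lift' (K i) (hinj i)).lt b c ∧ (LinearOrder.lift' (K i) (hinj i)).lt b d) ∨
        ((LinearOrder.lift' (K i) (hinj i)).lt c a ∧ (LinearOrder.lift' (K i) (hinj i)).lt d a ∧
          (LinearOrder.lift' (K i) (hinj i)).lt c b ∧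
          (LinearOrder.lift' (K i) (hinj i)).lt d b) := by
    intro p q l m h1 h2 hpq hlm a b c d ha hb hc hd
    obtain ⟨x, y, H⟩ := sep_edges h1 h2 hpq hlm
    have hφ : φ (e (x, y)) = key (fl t x) (fl t y) := by simp [φ]
    refine ⟨e (x, y), ?_⟩
    rcases H with H | H
    · rw [← hφ] at H
      exact Or.inl ⟨hlt _ _ _ (H a ha c hc), hlt _ _ _ (H a ha d hd), hlt _ _ _ (H b hb c hc),
        hlt _ _ _ (H b hb d hd)⟩
    · rw [← hφ] at H
      exact Or.inr ⟨hlt _ _ _ (H a ha c hc), hlt _ _ _ (H a ha d hd), hlt _ _ _ (H b hb c hc),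
        hlt _ _ _ (H b hb d hd)⟩
  intro a b c d hab hcd hac had hbc hbd
  rcases hab with ⟨p, l, rfl, rfl, h1⟩ | ⟨p, l, rfl, rfl, h1⟩ <;>
    rcases hcd with ⟨q, m, rfl, rfl, h2⟩ | ⟨q, m, rfl, rfl, h2⟩
  · exact main p q l m h1 h2 (fun h => hac (by rw [h])) (fun h => hbd (by rw [h])) _ _ _ _
      (by simp) (by simp) (by simp) (by simp)
  · exact main p q l m h1 h2 (fun h => had (by rw [h])) (fun h => hbc (by rw [h])) _ _ _ _
      (by simp) (by simp) (by simp) (by simp)
  · exact main p q l m h1 h2 (fun h => hbc (by rw [h])) (fun h => had (by rw [h])) _ _ _ _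
      (by simp) (by simp) (by simp) (by simp)
  · exact main p q l m h1 h2 (fun h => hbd (by rw [h])) (fun h => hac (by rw [h])) _ _ _ _
      (by simp) (by simp) (by simp) (by simp)

end Pool.Agent.Lib.MP_537007_co.Grid
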