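import Mathlib
import Pool.Agent.Lib.MP_537007_co.Box

set_option autoImplicit false

namespace Pool.Agent.Lib.MP_537007_co

open Finset

/-- points: pairs of words of length `k+1` over `Fin m` -/
abbrev Pt (k m : ℕ) : Type := (Fin (k + 1) → Fin m) × (Fin (k + 1) → Fin m)

/-- lines: two free positions, the other letters, and the total digit sum modulo `m` -/
abbrev Ln (k m : ℕ) : Type :=
  Fin (k + 1) × Fin (k + 1) × (Fin k → Fin m) × (Fin k → Fin m) × Fin m

/-- incidence -/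
def Inc (k m : ℕ) [NeZero m] (p : Pt k m) (l : Ln k m) : Prop :=
  ((∀ t, t ≠ l.1 → p.1 t = (Fin.insertNth l.1 (0 : Fin m) l.2.2.1 : Fin (k + 1) → Fin m) t) ∧
   (∀ t, t ≠ l.2.1 → p.2 t = (Fin.insertNth l.2.1 (0 : Fin m) l.2.2.2.1 : Fin (k + 1) → Fin m) t)) ∧
  ((∑ t, p.1 t + ∑ t, p.2 t ≤ l.2.2.2.2) ∧ (l.2.2.2.2 ≤ ∑ t, p.1 t + ∑ t, p.2 t))

abbrev Dim : Type :=
  (((Unit ⊕ Unit) ⊕ (Unit ⊕ Unit)) ⊕ ((Unit ⊕ Unit) ⊕ (Unit ⊕ Unit))) ⊕ (Unit ⊕ Unit)

theorem card_dim : Fintype.card Dim = 10 := by simp [Dim]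

theorem isFer_inc (k m : ℕ) [NeZero m] : IsFer Dim (Inc k m) := by
  have h1 := isFer_off (P := Pt k m) (L := Ln k m) (fun p => p.1)
    (fun l => (Fin.insertNth l.1 (0 : Fin m) l.2.2.1 : Fin (k + 1) → Fin m)) (fun l => l.1)
  have h2 := isFer_off (P := Pt k m) (L := Ln k m) (fun p => p.2)
    (fun l => (Fin.insertNth l.2.1 (0 : Fin m) l.2.2.2.1 : Fin (k + 1) → Fin m)) (fun l => l.2.1)
  have h3 := isFer_le (P := Pt k m) (L := Ln k m) (fun p => ∑ t, p.1 t + ∑ t, p.2 t)
    (fun l => l.2.2.2.2)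
  have h4 := isFer_ge (P := Pt k m) (L := Ln k m) (fun p => ∑ t, p.1 t + ∑ t, p.2 t)
    (fun l => l.2.2.2.2)
  exact (h1.and h2).and (h3.and h4)

theorem eq_of_off_of_sum {k m : ℕ} [NeZero m] (a b : Fin (k + 1) → Fin m) (j : Fin (k + 1))
    (h : ∀ t, t ≠ j → a t = b t) (hs : ∑ t, a t = ∑ t, b t) : a = b := by
  rw [Fin.sum_univ_succAbove _ j, Fin.sum_univ_succAbove _ j] at hs
  have : ∑ t : Fin k, a (j.succAbove t) = ∑ t : Fin k, b (j.succAbove t) :=
    Finset.sum_congr rfl fun t _ => h _ (Fin.succAbove_ne j t)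
  rw [this] at hs
  funext t
  by_cases ht : t = j
  · subst ht; exact add_right_cancel hs
  · exact h t ht

theorem inc_c4 (k m : ℕ) [NeZero m] (p p' : Pt k m) (l l' : Ln k m)
    (h1 : Inc k m p l) (h2 : Inc k m p l') (h3 : Inc k m p' l) (h4 : Inc k m p' l') :
    p = p' ∨ l = l' := by
  obtain ⟨i, j, a, b, s⟩ := l
  obtain ⟨i', j', a', b', s'⟩ := l'
  obtain ⟨x, y⟩ := p
  obtain ⟨x', y'⟩ := p'
  simp only [Inc] at h1 h2 h3 h4
  have e1 := le_antisymm h1.2.1 h1.2.2
  have e2 := le_antisymm h2.2.1 h2.2.2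
  have e3 := le_antisymm h3.2.1 h3.2.2
  have hx : ∀ t, t ≠ i → x t = x' t := fun t ht => (h1.1.1 t ht).trans (h3.1.1 t ht).symm
  have hx' : ∀ t, t ≠ i' → x t = x' t := fun t ht => (h2.1.1 t ht).trans (h4.1.1 t ht).symm
  have hy : ∀ t, t ≠ j → y t = y' t := fun t ht => (h1.1.2 t ht).trans (h3.1.2 t ht).symm
  have hy' : ∀ t, t ≠ j' → y t = y' t := fun t ht => (h2.1.2 t ht).trans (h4.1.2 t ht).symm
  by_cases hi : i = i'
  · by_cases hj : j = j'
    · right
      subst hi hj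
      have ha : a = a' := by
        funext t
        have := (h1.1.1 _ (Fin.succAbove_ne i t)).symm.trans (h2.1.1 _ (Fin.succAbove_ne i t))
        simpa using this
      have hb : b = b' := by
        funext t
        have := (h1.1.2 _ (Fin.succAbove_ne j t)).symm.trans (h2.1.2 _ (Fin.succAbove_ne j t))
        simpa using this
      rw [ha, hb, ← e1, ← e2]
    · left
      have hyy : y = y' := by
        funext t
        by_cases ht : t = j
        · exact hy' t (by rw [ht]; exact hj)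
        · exact hy t ht
      subst hyy
      have : x = x' := eq_of_off_of_sum x x' i hx (add_right_cancel (e1.trans e3.symm))
      rw [this]
  · left
    have hxx : x = x' := by
      funext t
      by_cases ht : t = i
      · exact hx' t (by rw [ht]; exact hi)
      · exact hx t ht
    subst hxx
    have : y = y' := eq_of_off_of_sum y y' j hy (add_left_cancel (e1.trans e3.symm))
    rw [this]

theorem inc_exists (k m : ℕ) [NeZero m] (p : Pt k m) (i j : Fin (k + 1)) :
    ∃ l : Ln k m, Inc k m p l ∧ l.1 = i ∧ l.2.1 = j := by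
  refine ⟨(i, j, Fin.removeNth i p.1, Fin.removeNth j p.2, ∑ t, p.1 t + ∑ t, p.2 t), ?_, rfl, rfl⟩
  refine ⟨⟨fun t ht => ?_, fun t ht => ?_⟩, le_rfl, le_rfl⟩
  · simp only [Fin.insertNth_removeNth]
    rw [Function.update_of_ne ht]
  · simp only [Fin.insertNth_removeNth]
    rw [Function.update_of_ne ht]

/-- the spanning subgraph of the incidence graph selected by `σ` -/
def sub (k m : ℕ) [NeZero m] (σ : Pt k m × Fin (k + 1) × Fin (k + 1) → Bool) :
    SimpleGraph (Pt k m ⊕ Ln k m) :=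
  bip (fun p l => Inc k m p l ∧ σ (p, l.1, l.2.1) = true)

theorem sub_injective (k m : ℕ) [NeZero m] : Function.Injective (sub k m) := by
  intro σ τ h
  funext ⟨p, i, j⟩
  obtain ⟨l, hl, rfl, rfl⟩ := inc_exists k m p i j
  have h1 : (sub k m σ).Adj (Sum.inl p) (Sum.inr l) ↔ (sub k m τ).Adj (Sum.inl p) (Sum.inr l) := by
    rw [h]
  simp only [sub, bip_adj, hl, true_and] at h1
  exact Bool.eq_iff_iff.mpr h1

theorem sub_sep (k m : ℕ) [NeZero m] (σ : Pt k m × Fin (k + 1) × Fin (k + 1) → Bool) :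
    BoxRep (sub k m σ).lineGraph 10 := by
  rw [← card_dim]
  exact boxRep_lineGraph_bip (isFer_inc k m) (inc_c4 k m) _ (fun _ _ h => h.1)

theorem arith (d : ℕ) : ∃ t : ℕ, 1 ≤ t ∧ 24 * d * t < 2 ^ t := by
  refine ⟨2 * (48 * d + 1), by omega, ?_⟩
  have h : 48 * d + 1 < 2 ^ (48 * d + 1) := Nat.lt_two_pow_self
  have : 2 ^ (2 * (48 * d + 1)) = 2 ^ (48 * d + 1) * 2 ^ (48 * d + 1) := by
    rw [← pow_add]; congr 1; ring
  rw [this]
  nlinarith

/-- For every `d` there is a finite graph whose line graph has boxicity at most `10`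
and which has boxicity more than `d`. -/
theorem exists_sep_le_ten (d : ℕ) :
    ∃ (V : Type) (_ : Fintype V) (G : SimpleGraph V), BoxRep G.lineGraph 10 ∧ ¬ BoxRep G d := by
  classical
  obtain ⟨t, ht1, ht⟩ := arith d
  obtain ⟨k, hk⟩ : ∃ k, 2 ^ t = k + 1 := ⟨2 ^ t - 1, by have := Nat.one_le_two_pow (n := t); omega⟩
  set m := (k + 1) * (k + 1) with hm
  have : NeZero m := ⟨by positivity⟩
  by_contra hcon
  push Not at hcon
  have hall : ∀ σ, BoxRep (sub k m σ) d := fun σ => hcon _ inferInstance _ (sub_sep k m σ)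
  have hcard := card_le_of_boxRep d (sub k m) (sub_injective k m) hall
  set M := m ^ (2 * (k + 1)) with hM
  have hP : Fintype.card (Pt k m) = M := by
    simp only [Fintype.card_prod, Fintype.card_pi, Fintype.card_fin, Finset.prod_const,
      Finset.card_univ, hM]
    ring
  have hL : Fintype.card (Ln k m) = M := by
    simp only [Fintype.card_prod, Fintype.card_pi, Fintype.card_fin, Finset.prod_const,
      Finset.card_univ, hM]
    rw [← mul_assoc, ← hm]
    ring
  have hV : Fintype.card (Pt k m ⊕ Ln k m) = 2 * M := by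
    rw [Fintype.card_sum, hP, hL]; ring
  have hS : Fintype.card (Pt k m × Fin (k + 1) × Fin (k + 1) → Bool) = 2 ^ (M * m) := by
    rw [Fintype.card_fun, Fintype.card_bool, Fintype.card_prod, hP]
    simp [hm]
  rw [hV, hS] at hcard
  have hMpow : M = 2 ^ (4 * t * (k + 1)) := by
    rw [hM, hm, ← hk, ← pow_add, ← pow_mul]; congr 1; ring
  have hMpos : 1 ≤ M := by rw [hMpow]; exact Nat.one_le_two_pow
  have h1 : 2 * M + 1 ≤ 2 ^ (4 * t * (k + 1) + 2) := by
    rw [pow_add, ← hMpow]; omega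
  have h2 : (2 * M + 1) ^ (2 * (2 * M) * d) ≤ 2 ^ ((4 * t * (k + 1) + 2) * (2 * (2 * M) * d)) := by
    rw [pow_mul 2]
    exact Nat.pow_le_pow_left h1 _
  have h3 := (Nat.pow_le_pow_iff_right (by norm_num : 1 < 2)).1 (hcard.trans h2)
  have h4 : m ≤ (4 * t * (k + 1) + 2) * (4 * d) := by
    have : M * m ≤ M * ((4 * t * (k + 1) + 2) * (4 * d)) := by
      calc M * m ≤ _ := h3
        _ = _ := by ring
    exact Nat.le_of_mul_le_mul_left this hMpos
  rw [hk] at ht
  have h5 : (4 * t * (k + 1) + 2) ≤ 6 * t * (k + 1) := by nlinarith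
  have h6 : (k + 1) * (k + 1) ≤ (24 * d * t) * (k + 1) := by
    calc (k + 1) * (k + 1) ≤ (4 * t * (k + 1) + 2) * (4 * d) := h4
      _ ≤ 6 * t * (k + 1) * (4 * d) := Nat.mul_le_mul_right _ h5
      _ = _ := by ring
  have := Nat.le_of_mul_le_mul_right h6 (Nat.succ_pos k)
  omega

end Pool.Agent.Lib.MP_537007_co
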